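import Pool.Agent.CPT.StmtsD

/-! Squad CPT, row CHL (helper67): a computable polynomial is a limit. -/

set_option autoImplicit false

namespace Pool.Agent.CPT.H67

open MvPolynomial Pool.Agent.BSH Pool.Agent.Helper78_ACIT Pool.Agent.CPT

theorem chl (h : LftStmt) : ChlStmt := by
  intro E _ n s F hF
  refine ⟨map Polynomial.C F, ?_, ?_⟩
  · unfold at0
    rw [map_map]
    have e : (Polynomial.evalRingHom (0 : E)).comp Polynomial.C = RingHom.id E := by
      ext c
      simp
    rw [e, map_id]
  · unfold gen1
    rw [map_map]
    have e : (algebraMap (Polynomial E) (EE E)).comp Polynomial.C = algebraMap E (EE E) := by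
      rw [IsScalarTower.algebraMap_eq E (Polynomial E) (EE E)]
      rfl
    rw [e]
    exact h E (EE E) n s F hF

end Pool.Agent.CPT.H67
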